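import Pool.Agent.Q331.FC.Stmts

set_option autoImplicit false

namespace Pool.Agent.Q92.FCfb.TaskEqui

open MeasureTheory ProbabilityTheory Filter Topology Finset
open Pool.Agent.Q331.FC

theorem main : TaskEqui := by
  intro hpres E _ ν _ φ hφ
  have h1 : ∀ᵐ y ∂iid ν, ∀ i : ℕ, φ (sh (sh^[i] y)) = sh (φ (sh^[i] y)) := by
    rw [ae_all_iff]
    intro i
    exact ((hpres E ν).iterate i).quasiMeasurePreserving.ae hφ
  filter_upwards [h1] with y hy i
  induction i with
  | zero => rfl
  | succ i ih =>
    rw [Function.iterate_succ_apply', Function.iterate_succ_apply', hy i, ih]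

end Pool.Agent.Q92.FCfb.TaskEqui
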